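import Pool.Agent.W418.Lin.Lau

/-!
# Linear spaces
-/

set_option autoImplicit false
set_option linter.unusedVariables false
set_option linter.unusedSectionVars false

universe u

open MvPolynomial

namespace Pool.Agent.W418.Lin

open Pool.Agent.W558

section minors

variable {E : Type u} [Field E] {r : ℕ} {J : Type}

/-- The minors of the matrix with the rows `v j`. -/
noncomputable def pl (v : J → Fin r → E) (s : Fin r → J) : E := Matrix.det fun i => v (s i)

lemma cramer [DecidableEq J] (v : J → Fin r → E) (s : Fin r → J) (j : J) (l : Fin r) :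
    ∑ i, pl v (Function.update s i j) * v (s i) l = pl v s * v j l := by
  let A : Matrix (Fin r) (Fin r) E := Matrix.transpose fun i => v (s i)
  have h1 := congrFun (Matrix.mulVec_cramer A (v j)) l
  have h2 : ∀ i, A.cramer (v j) i = pl v (Function.update s i j) := by
    intro i
    rw [Matrix.cramer_apply, ← Matrix.det_transpose]
    unfold pl
    congr 1
    ext a b
    rw [Matrix.transpose_apply, Matrix.updateCol_apply]
    by_cases h : a = i
    · subst h
      simp
    · rw [if_neg h, Function.update_of_ne h]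
      rfl
  have h3 : A.det = pl v s := Matrix.det_transpose _
  rw [h3] at h1
  change ∑ i, A l i * A.cramer (v j) i = pl v s * v j l at h1
  rw [← h1]
  refine Finset.sum_congr rfl fun i _ => ?_
  rw [h2, mul_comm]
  rfl

lemma pl_update_ne [DecidableEq J] (v : J → Fin r → E) (s : Fin r → J) {i i' : Fin r}
    (h : i ≠ i') : pl v (Function.update s i (s i')) = 0 := by
  refine Matrix.det_zero_of_row_eq h ?_
  rw [Function.update_self, Function.update_of_ne h.symm]

end minors

section forms

variable {E L : Type u} [Field E] [Field L] [Algebra E L] {r : ℕ} {J ι : Type}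

/-- The linear forms. -/
noncomputable def lf (v : J → Fin r → E) (x : Fin r → L) (j : J) : L :=
  ∑ i, algebraMap E L (v j i) * x i

lemma lf_rel [DecidableEq J] (v : J → Fin r → E) (x : Fin r → L) {s : Fin r → J}
    (hs : pl v s ≠ 0) (j : J) :
    lf v x j = ∑ i, algebraMap E L (pl v (Function.update s i j) / pl v s) * lf v x (s i) := by
  unfold lf
  simp only [Finset.mul_sum]
  rw [Finset.sum_comm]
  refine Finset.sum_congr rfl fun l _ => ?_
  have h1 := cramer v s j l
  have h2 : v j l = ∑ i, pl v (Function.update s i j) / pl v s * v (s i) l := by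
    apply mul_left_cancel₀ hs
    rw [← h1, Finset.mul_sum]
    refine Finset.sum_congr rfl fun i _ => ?_
    field_simp
  rw [h2, map_sum, Finset.sum_mul]
  refine Finset.sum_congr rfl fun i _ => ?_
  rw [map_mul]
  ring

lemma lf_ne {v : J → Fin r → E} {x : Fin r → L} (hx : AlgebraicIndependent E x) {j : J}
    (hv : v j ≠ 0) : lf v x j ≠ 0 := by
  intro h0
  apply hv
  have h1 : aeval x (∑ i, C (v j i) * X i) = lf v x j := by
    simp [lf]
  have h2 : (∑ i, C (v j i) * X i : MvPolynomial (Fin r) E) = 0 := by
    have h3 : Function.Injective (aeval x : MvPolynomial (Fin r) E →ₐ[E] L) := hx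
    apply h3
    rw [h1, h0, map_zero]
  funext i
  have h3 := congrArg (coeff (Finsupp.single i 1)) h2
  rw [coeff_sum, coeff_zero, Finset.sum_eq_single i] at h3
  · rw [coeff_C_mul, coeff_X, if_pos rfl, mul_one] at h3
    exact h3
  · intro b _ hb
    rw [coeff_C_mul, coeff_X, if_neg, mul_zero]
    intro h
    exact hb (Finsupp.single_left_injective one_ne_zero h)
  · intro h; exact absurd (Finset.mem_univ i) h

/-- The forms of a basis are algebraically independent. -/
lemma lf_indep {v : J → Fin r → E} {x : Fin r → L} {w : ι → L}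
    (hx : AlgebraicIndependent E (Sum.elim x w)) {s : Fin r → J} (hs : pl v s ≠ 0) :
    AlgebraicIndependent E (Sum.elim (fun i => lf v x (s i)) w) := by
  let V : Matrix (Fin r) (Fin r) E := fun i => v (s i)
  have hV : IsUnit V.det := isUnit_iff_ne_zero.2 hs
  let sub (W : Matrix (Fin r) (Fin r) E) : MvPolynomial (Fin r ⊕ ι) E →ₐ[E]
      MvPolynomial (Fin r ⊕ ι) E :=
    aeval (Sum.elim (fun i => ∑ l, C (W i l) * X (Sum.inl l)) fun i => X (Sum.inr i))
  have h1 : ∀ P, aeval (Sum.elim x w) (sub V P) =
      aeval (Sum.elim (fun i => lf v x (s i)) w) P := by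
    intro P
    have h2 : (aeval (Sum.elim x w)).comp (sub V) =
        aeval (R := E) (Sum.elim (fun i => lf v x (s i)) w) := by
      apply MvPolynomial.algHom_ext
      rintro (i | i)
      · simp [sub, lf, V]
      · simp [sub]
    exact congrArg (fun f : MvPolynomial (Fin r ⊕ ι) E →ₐ[E] L => f P) h2
  have h3 : (sub V⁻¹).comp (sub V) = AlgHom.id E _ := by
    apply MvPolynomial.algHom_ext
    rintro (i | i)
    · have h4 : ∀ l, ∑ l', V i l' * V⁻¹ l' l = if i = l then 1 else 0 := by
        intro l
        have := congrFun (congrFun (Matrix.mul_nonsing_inv V hV) i) l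
        rw [Matrix.mul_apply, Matrix.one_apply] at this
        exact this
      simp only [sub, AlgHom.comp_apply, aeval_X, Sum.elim_inl, map_sum, map_mul, algHom_C,
        algebraMap_eq, AlgHom.id_apply, Finset.mul_sum]
      rw [Finset.sum_comm]
      have h5 : ∀ l, ∑ l', C (V i l') * (C (V⁻¹ l' l) * X (Sum.inl l : Fin r ⊕ ι)) =
          if i = l then (X (Sum.inl l) : MvPolynomial (Fin r ⊕ ι) E) else 0 := by
        intro l
        simp only [← mul_assoc, ← map_mul]
        rw [← Finset.sum_mul, ← map_sum, h4]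
        split_ifs <;> simp
      rw [Finset.sum_congr rfl fun l _ => h5 l, Finset.sum_ite_eq]
      simp
    · simp [sub]
  have h6 : Function.Injective (sub V) := by
    apply Function.LeftInverse.injective (g := sub V⁻¹)
    intro P
    exact congrArg (fun f : MvPolynomial (Fin r ⊕ ι) E →ₐ[E] _ => f P) h3
  change Function.Injective (aeval (R := E) (Sum.elim (fun i => lf v x (s i)) w))
  intro P P' h
  rw [← h1, ← h1] at h
  exact h6 (hx h)

end forms

section kernel

variable {k E K L : Type u} [Field k] [Field E] [Field K] [Field L] [Algebra k E] [Algebra k K]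
  [Algebra E K] [IsScalarTower k E K] [Algebra k L] [Algebra E L] [IsScalarTower k E L]
  {r : ℕ} {J ι : Type} [DecidableEq J]

/-- The equations of the linear space. -/
noncomputable def FF (v : J → Fin r → E) (z : J ⊕ ι → K) (s : Fin r → J) (j : J) : K :=
  1 - ∑ i, algebraMap E K (pl v (Function.update s i j) / pl v s) *
    (z (Sum.inl (s i)) * (z (Sum.inl j))⁻¹)

lemma FF_mem (v : J → Fin r → E) (z : J ⊕ ι → K) (s : Fin r → J) (j : J) :
    FF v z s j ∈ LauI k E z :=
  (LauI k E z).sub_mem (LauI k E z).one_mem ((LauI k E z).sum_mem fun i _ =>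
    (LauI k E z).mul_mem (em_mem z _) ((LauI k E z).mul_mem (z_mem z _) (zi_mem z _)))

lemma FF_self {v : J → Fin r → E} {z : J ⊕ ι → K} (hz : ∀ i, z i ≠ 0) {s : Fin r → J}
    (hs : pl v s ≠ 0) (i : Fin r) : FF v z s (s i) = 0 := by
  unfold FF
  rw [Finset.sum_eq_single i]
  · rw [Function.update_eq_self, div_self hs, map_one, one_mul, mul_inv_cancel₀ (hz _), sub_self]
  · intro i' _ hi'
    rw [pl_update_ne v s hi', zero_div, map_zero, zero_mul]
  · intro h; exact absurd (Finset.mem_univ i) h

/-- The kernel of the evaluation is generated by the equations. -/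
theorem ker_lin {v : J → Fin r → E} {x : Fin r → L} {w : ι → L}
    (hx : AlgebraicIndependent E (Sum.elim x w)) {z : J ⊕ ι → K}
    (hz : AlgebraicIndependent E z) (hℓ : ∀ j, lf v x j ≠ 0) (π : LauI k E z →ₐ[k] L)
    (hE : ∀ a h, π ⟨algebraMap E K a, h⟩ = algebraMap E L a)
    (hj : ∀ j h, π ⟨z j, h⟩ = Sum.elim (lf v x) w j)
    (hq : ∀ q : LauI k E z, ∃ (P : MvPolynomial (J ⊕ ι) E) (s : J ⊕ ι →₀ ℕ),
      (q : K) * aeval z (monomial s (1 : E)) = aeval z P ∧
      π q * aeval (Sum.elim (lf v x) w) (monomial s (1 : E)) = aeval (Sum.elim (lf v x) w) P)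
    {s : Fin r → J} (hs : pl v s ≠ 0) (q : LauI k E z) :
    π q = 0 ↔ q ∈ Ideal.span (Set.range fun j => (⟨FF v z s j, FF_mem v z s j⟩ : LauI k E z)) := by
  have hz0 : ∀ i, z i ≠ 0 := fun i => hz.ne_zero i
  have hji : ∀ j h, π ⟨(z j)⁻¹, h⟩ = (Sum.elim (lf v x) w j)⁻¹ := by
    intro j h
    have h1 : π ⟨z j, z_mem z j⟩ * π ⟨(z j)⁻¹, h⟩ = 1 := by
      rw [← map_mul, ← map_one π]
      congr 1
      exact Subtype.ext (mul_inv_cancel₀ (hz0 j))
    rw [hj] at h1
    exact eq_inv_of_mul_eq_one_right h1
  let θ : MvPolynomial (J ⊕ ι) E →+* LauI k E z :=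
    RingHom.codRestrict (aeval z : MvPolynomial (J ⊕ ι) E →ₐ[E] K).toRingHom (LauI k E z)
      fun P => poly_mem z P
  have hθ : ∀ P, ((θ P : LauI k E z) : K) = aeval z P := fun P => rfl
  constructor
  · intro h0
    obtain ⟨P, t, h1, h2⟩ := hq q
    rw [h0, zero_mul] at h2
    let σ : MvPolynomial (J ⊕ ι) E →ₐ[E] MvPolynomial (Fin r ⊕ ι) E :=
      aeval (Sum.elim (fun j => ∑ i, C (pl v (Function.update s i j) / pl v s) * X (Sum.inl i))
        fun i => X (Sum.inr i))
    let ρ : Fin r ⊕ ι → J ⊕ ι := Sum.map s id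
    let I0 : Ideal (MvPolynomial (J ⊕ ι) E) := Ideal.span (Set.range fun j : J =>
      X (Sum.inl j) - rename ρ (σ (X (Sum.inl j))))
    have key : ∀ P, P - rename ρ (σ P) ∈ I0 := by
      intro P
      induction P using MvPolynomial.induction_on with
      | C a => simp [σ]
      | add p q hp hq =>
        have : p + q - rename ρ (σ (p + q)) = (p - rename ρ (σ p)) + (q - rename ρ (σ q)) := by
          rw [map_add, map_add]; ring
        rw [this]
        exact I0.add_mem hp hq
      | mul_X p i hp =>
        have : p * X i - rename ρ (σ (p * X i)) = (p - rename ρ (σ p)) * X i +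
            rename ρ (σ p) * (X i - rename ρ (σ (X i))) := by
          rw [map_mul, map_mul]; ring
        rw [this]
        refine I0.add_mem (I0.mul_mem_right _ hp) (I0.mul_mem_left _ ?_)
        rcases i with j | i
        · exact Ideal.subset_span ⟨j, rfl⟩
        · simp [σ, ρ]
    have hζI : ∀ Q ∈ I0, aeval (Sum.elim (lf v x) w) Q = 0 := by
      intro Q hQ
      have h3 : I0 ≤ RingHom.ker (aeval (R := E) (Sum.elim (lf v x) w)) := by
        rw [Ideal.span_le]
        rintro _ ⟨j, rfl⟩
        change aeval (Sum.elim (lf v x) w) (X (Sum.inl j) - rename ρ (σ (X (Sum.inl j)))) = 0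
        have h4 := lf_rel v x hs j
        simp only [σ, ρ, map_sub, aeval_X, Sum.elim_inl, map_sum, map_mul, rename_X,
          Sum.map_inl, algHom_C, AlgHom.commutes]
        rw [sub_eq_zero]
        exact h4
      exact h3 hQ
    have hσ : σ P = 0 := by
      have h3 := hζI _ (key P)
      rw [map_sub, ← h2, zero_sub, neg_eq_zero, aeval_rename] at h3
      have h4 : (Sum.elim (lf v x) w) ∘ ρ = Sum.elim (fun i => lf v x (s i)) w := by
        funext i
        rcases i with i | i <;> rfl
      rw [h4] at h3
      apply lf_indep hx hs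
      rw [map_zero]
      exact h3
    have hP : P ∈ I0 := by
      have h3 := key P
      rw [hσ, map_zero, sub_zero] at h3
      exact h3
    have hI : I0 ≤ (Ideal.span (Set.range fun j =>
        (⟨FF v z s j, FF_mem v z s j⟩ : LauI k E z))).comap θ := by
      rw [Ideal.span_le]
      rintro _ ⟨j, rfl⟩
      rw [SetLike.mem_coe, Ideal.mem_comap]
      have h3 : θ (X (Sum.inl j) - rename ρ (σ (X (Sum.inl j)))) =
          ⟨z (Sum.inl j), z_mem z _⟩ * ⟨FF v z s j, FF_mem v z s j⟩ := by
        apply Subtype.ext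
        rw [hθ]
        change _ = z (Sum.inl j) * FF v z s j
        simp only [σ, ρ, FF, map_sub, aeval_X, Sum.elim_inl, map_sum, map_mul, rename_X,
          Sum.map_inl, algHom_C, AlgHom.commutes]
        rw [mul_sub, mul_one, Finset.mul_sum]
        congr 1
        refine Finset.sum_congr rfl fun i _ => ?_
        have := hz0 (Sum.inl j)
        field_simp
      rw [h3]
      exact Ideal.mul_mem_left _ _ (Ideal.subset_span ⟨j, rfl⟩)
    have h5 : q = ⟨_, monoi_mem z t⟩ * θ P := by
      apply Subtype.ext
      change (q : K) = (aeval z (monomial t (1 : E)))⁻¹ * aeval z P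
      rw [← h1]
      have := mono_ne (E := E) hz0 t
      field_simp
    rw [h5]
    exact Ideal.mul_mem_left _ _ (hI hP)
  · intro h0
    have h3 : Ideal.span (Set.range fun j => (⟨FF v z s j, FF_mem v z s j⟩ : LauI k E z)) ≤
        RingHom.ker π := by
      rw [Ideal.span_le]
      rintro _ ⟨j, rfl⟩
      change π ⟨FF v z s j, FF_mem v z s j⟩ = 0
      have h4 : (⟨FF v z s j, FF_mem v z s j⟩ : LauI k E z) = 1 - ∑ i,
          (⟨_, em_mem z (pl v (Function.update s i j) / pl v s)⟩ : LauI k E z) *
            (⟨_, z_mem z (Sum.inl (s i))⟩ * ⟨_, zi_mem z (Sum.inl j)⟩) := by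
        apply Subtype.ext
        simp [FF]
      rw [h4, map_sub, map_one, map_sum]
      have h5 := lf_rel v x hs j
      have h6 : ∀ i, π ((⟨_, em_mem z (pl v (Function.update s i j) / pl v s)⟩ : LauI k E z) *
            (⟨_, z_mem z (Sum.inl (s i))⟩ * ⟨_, zi_mem z (Sum.inl j)⟩)) =
          algebraMap E L (pl v (Function.update s i j) / pl v s) * lf v x (s i) *
            (lf v x j)⁻¹ := by
        intro i
        rw [map_mul, map_mul, hE, hj, hji]
        simp only [Sum.elim_inl]
        ring
      rw [Finset.sum_congr rfl fun i _ => h6 i, ← Finset.sum_mul, ← h5,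
        mul_inv_cancel₀ (hℓ j), sub_self]
    exact h3 h0

end kernel

end Pool.Agent.W418.Lin
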