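import Pool.Agent.W558.S2.Stms2
import Pool.Agent.W558.Fin1

/-!
# Laurent algebras and their evaluations
-/

set_option autoImplicit false
set_option linter.unusedVariables false
set_option linter.unusedSectionVars false

universe u

open MvPolynomial

namespace Pool.Agent.W418.Lin

open Pool.Agent.W558

section lau

variable {k E K : Type u} [Field k] [Field E] [Field K] [Algebra k E] [Algebra k K]
  [Algebra E K] [IsScalarTower k E K] {ι : Type}

variable (k E) in
/-- The algebra generated by the field `E` and the elements `z j` and their inverses. -/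
def LauI (z : ι → K) : Subalgebra k K :=
  Algebra.adjoin k (Set.range (algebraMap E K) ∪ Set.range z ∪ Set.range fun j => (z j)⁻¹)

variable (k E) in
/-- The derivations for which the `z j` are eigenvectors and which kill `E`. -/
def DI (z : ι → K) : Set (Derivation k K K) :=
  {D : Derivation k K K | (∀ x : E, D (algebraMap E K x) = 0) ∧ ∀ j, ∃ χ : k, D (z j) = χ • z j}

lemma em_mem (z : ι → K) (x : E) : algebraMap E K x ∈ LauI k E z :=
  Algebra.subset_adjoin (Or.inl (Or.inl ⟨x, rfl⟩))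

lemma z_mem (z : ι → K) (j : ι) : z j ∈ LauI k E z :=
  Algebra.subset_adjoin (Or.inl (Or.inr ⟨j, rfl⟩))

lemma zi_mem (z : ι → K) (j : ι) : (z j)⁻¹ ∈ LauI k E z :=
  Algebra.subset_adjoin (Or.inr ⟨j, rfl⟩)

lemma lauI_le {z : ι → K} {Q : Subalgebra k K} (h1 : ∀ x : E, algebraMap E K x ∈ Q)
    (h2 : ∀ j, z j ∈ Q) (h3 : ∀ j, (z j)⁻¹ ∈ Q) : LauI k E z ≤ Q := by
  apply Algebra.adjoin_le
  rintro _ ((⟨x, rfl⟩ | ⟨j, rfl⟩) | ⟨j, rfl⟩)
  · exact h1 x
  · exact h2 j
  · exact h3 j

lemma lau_comp {r : ℕ} (e : Fin r ≃ ι) (z : ι → K) :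
    Lau (k := k) (E := E) (z ∘ e) = LauI k E z := by
  unfold Lau LauI
  congr 2
  · congr 1
    exact e.surjective.range_comp z
  · exact e.surjective.range_comp fun j => (z j)⁻¹

lemma sta_comp {G G' : Type} {g : G → K} {Q : Subalgebra k K} {Ds : Set (Derivation k K K)}
    (h : Sta g Q Ds) (f : G' → G) : Sta (g ∘ f) Q Ds := by
  obtain ⟨h1, h2, h3, T, I, i1, i2, i3, M, Γ, B, b, hFn, hLD, hBas⟩ := h
  exact ⟨fun a => h1 _, h2, fun D hD a => h3 D hD _, T, I, i1, i2, i3, M, Γ ∘ f, B, b,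
    fun a t => hFn (f a) t, hLD, hBas⟩

lemma sta_mono {G : Type} {g : G → K} {Q : Subalgebra k K} {Ds Ds' : Set (Derivation k K K)}
    (h : Sta g Q Ds) (hD : Ds' ⊆ Ds) : Sta g Q Ds' := by
  obtain ⟨h1, h2, h3, T, I, i1, i2, i3, M, Γ, B, b, hFn, hLD, hBas⟩ := h
  refine ⟨h1, fun D h => h2 D (hD h), fun D h => h3 D (hD h), T, I, i1, i2, i3, M, Γ, B, b, hFn,
    fun D h => hLD D (hD h), ?_⟩
  exact
    { A := hBas.A
      x := hBas.x
      BA := hBas.BA
      ft := hBas.ft
      bB := hBas.bB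
      b0 := hBas.b0
      DB := fun D h => hBas.DB D (hD h)
      BQ := hBas.BQ
      cof := hBas.cof
      bx := hBas.bx
      sub := hBas.sub }

/-- The product of a model of the base field with a compactified torus. -/
theorem base_lauI (hbase : S2_base.{u}) {T I G : Type} [Finite T] [Fintype I]
    (M : LM (⊥ : Subalgebra k E) ⊤ T I) (h : G → E) (Γ : G → I → ℤ) (hF : Fn M h Γ)
    (hfr : ∀ t (x : E), ∃ a ∈ M.A t, ∃ b ∈ M.A t, b ≠ 0 ∧ x = a * b⁻¹) [Finite ι] (z : ι → K)
    (hz : AlgebraicIndependent E z) :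
    Sta (Sum.elim (fun b => algebraMap E K (h b)) z) (LauI k E z) (DI k E z) := by
  obtain ⟨r, ⟨e⟩⟩ := Finite.exists_equiv_fin ι
  have h1 := hbase k E K T I G M h Γ hF hfr r (z ∘ e.symm) (hz.comp _ e.symm.injective)
  have h2 := sta_comp h1 (Sum.map id e : G ⊕ ι → G ⊕ Fin r)
  have h3 : (Sum.elim (fun b => algebraMap E K (h b)) (z ∘ e.symm)) ∘
      (Sum.map id e : G ⊕ ι → G ⊕ Fin r) = Sum.elim (fun b => algebraMap E K (h b)) z := by
    funext a
    rcases a with a | a
    · rfl
    · simp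
  rw [h3, lau_comp] at h2
  refine sta_mono h2 ?_
  rintro D ⟨hD1, hD2⟩
  exact ⟨hD1, fun j => hD2 _⟩

lemma mono_ne {L : Type u} [Field L] [Algebra E L] {z : ι → L} (hz : ∀ i, z i ≠ 0) (s : ι →₀ ℕ) :
    aeval z (monomial s (1 : E)) ≠ 0 := by
  rw [aeval_monomial, map_one, one_mul]
  exact Finset.prod_ne_zero_iff.2 fun i _ => pow_ne_zero _ (hz i)

lemma mono_mem (z : ι → K) (s : ι →₀ ℕ) : aeval z (monomial s (1 : E)) ∈ LauI k E z := by
  rw [aeval_monomial, map_one, one_mul]
  exact (LauI k E z).prod_mem fun i _ => (LauI k E z).pow_mem (z_mem z i) _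

lemma monoi_mem (z : ι → K) (s : ι →₀ ℕ) : (aeval z (monomial s (1 : E)))⁻¹ ∈ LauI k E z := by
  rw [aeval_monomial, map_one, one_mul, Finsupp.prod, ← Finset.prod_inv_distrib]
  refine (LauI k E z).prod_mem fun i _ => ?_
  rw [← inv_pow]
  exact (LauI k E z).pow_mem (zi_mem z i) _

lemma poly_mem (z : ι → K) (P : MvPolynomial ι E) : aeval z P ∈ LauI k E z := by
  induction P using MvPolynomial.induction_on with
  | C a =>
    rw [aeval_C]
    exact em_mem z a
  | add p q hp hq =>
    rw [map_add]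
    exact (LauI k E z).add_mem hp hq
  | mul_X p i hp =>
    rw [map_mul, aeval_X]
    exact (LauI k E z).mul_mem hp (z_mem z i)

variable {L : Type u} [Field L] [Algebra k L] [Algebra E L] [IsScalarTower k E L]

variable (k E) in
/-- The graph of the evaluation. -/
def graph (z : ι → K) (ζ : ι → L) : Subalgebra k (K × L) :=
  Algebra.adjoin k ((Set.range fun x : E => (algebraMap E K x, algebraMap E L x)) ∪
    (Set.range fun j => (z j, ζ j)) ∪ Set.range fun j => ((z j)⁻¹, (ζ j)⁻¹))

lemma graph_num {z : ι → K} {ζ : ι → L} (hz : ∀ i, z i ≠ 0) (hζ : ∀ i, ζ i ≠ 0) {w : K × L}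
    (hw : w ∈ graph k E z ζ) : ∃ (P : MvPolynomial ι E) (s : ι →₀ ℕ),
      w.1 * aeval z (monomial s (1 : E)) = aeval z P ∧
      w.2 * aeval ζ (monomial s (1 : E)) = aeval ζ P := by
  classical
  induction hw using Algebra.adjoin_induction with
  | mem x hx =>
    rcases hx with (⟨x, rfl⟩ | ⟨j, rfl⟩) | ⟨j, rfl⟩
    · exact ⟨C x, 0, by simp, by simp⟩
    · exact ⟨X j, 0, by simp, by simp⟩
    · refine ⟨1, Finsupp.single j 1, ?_, ?_⟩
      · rw [← X, aeval_X, map_one]
        exact inv_mul_cancel₀ (hz j)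
      · rw [← X, aeval_X, map_one]
        exact inv_mul_cancel₀ (hζ j)
  | algebraMap c =>
    refine ⟨C (algebraMap k E c), 0, ?_, ?_⟩
    · rw [aeval_C, ← IsScalarTower.algebraMap_apply]
      simp
    · rw [aeval_C, ← IsScalarTower.algebraMap_apply]
      simp
  | add x y _ _ hx hy =>
    obtain ⟨P, s, h1, h2⟩ := hx
    obtain ⟨P', s', h1', h2'⟩ := hy
    have e : (monomial (s + s') (1 : E)) = monomial s 1 * monomial s' 1 := by
      rw [monomial_mul, one_mul]
    refine ⟨P * monomial s' 1 + P' * monomial s 1, s + s', ?_, ?_⟩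
    · rw [e, map_mul, map_add, map_mul, map_mul, ← h1, ← h1', Prod.fst_add]
      ring
    · rw [e, map_mul, map_add, map_mul, map_mul, ← h2, ← h2', Prod.snd_add]
      ring
  | mul x y _ _ hx hy =>
    obtain ⟨P, s, h1, h2⟩ := hx
    obtain ⟨P', s', h1', h2'⟩ := hy
    have e : (monomial (s + s') (1 : E)) = monomial s 1 * monomial s' 1 := by
      rw [monomial_mul, one_mul]
    refine ⟨P * P', s + s', ?_, ?_⟩
    · rw [e, map_mul, map_mul, ← h1, ← h1', Prod.fst_mul]
      ring
    · rw [e, map_mul, map_mul, ← h2, ← h2', Prod.snd_mul]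
      ring

/-- The evaluation of Laurent polynomials. -/
theorem exists_ev {z : ι → K} {ζ : ι → L} (hz : AlgebraicIndependent E z) (hζ : ∀ i, ζ i ≠ 0) :
    ∃ π : LauI k E z →ₐ[k] L, (∀ x h, π ⟨algebraMap E K x, h⟩ = algebraMap E L x) ∧
      (∀ j h, π ⟨z j, h⟩ = ζ j) ∧ ∀ q : LauI k E z, ∃ (P : MvPolynomial ι E) (s : ι →₀ ℕ),
      (q : K) * aeval z (monomial s (1 : E)) = aeval z P ∧
      π q * aeval ζ (monomial s (1 : E)) = aeval ζ P := by
  have hz0 : ∀ i, z i ≠ 0 := fun i => hz.ne_zero i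
  let f : graph k E z ζ →ₐ[k] K := (AlgHom.fst k K L).comp (graph k E z ζ).val
  have hf : Function.Injective f := by
    rw [injective_iff_map_eq_zero]
    rintro ⟨⟨a, b⟩, hw⟩ h0
    have ha : a = 0 := h0
    obtain ⟨P, s, h1, h2⟩ := graph_num hz0 hζ hw
    simp only at h1 h2
    rw [ha, zero_mul] at h1
    have hP : P = 0 := by
      have h3 : Function.Injective (aeval z : MvPolynomial ι E →ₐ[E] K) := hz
      apply h3
      rw [← h1, map_zero]
    rw [hP, map_zero] at h2
    have hb : b = 0 := (mul_eq_zero.1 h2).resolve_right (mono_ne hζ s)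
    apply Subtype.ext
    exact Prod.ext ha hb
  have hrange : f.range = LauI k E z := by
    have h1 : f.range = (graph k E z ζ).map (AlgHom.fst k K L) := by
      ext x
      constructor
      · rintro ⟨w, rfl⟩
        exact ⟨w, w.2, rfl⟩
      · rintro ⟨w, hw, rfl⟩
        exact ⟨⟨w, hw⟩, rfl⟩
    rw [h1, graph, AlgHom.map_adjoin, LauI]
    congr 1
    rw [Set.image_union, Set.image_union, ← Set.range_comp, ← Set.range_comp, ← Set.range_comp]
    rfl
  let e : graph k E z ζ ≃ₐ[k] f.range := AlgEquiv.ofInjective f hf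
  let c : LauI k E z ≃ₐ[k] f.range := Subalgebra.equivOfEq _ _ hrange.symm
  let π : LauI k E z →ₐ[k] L :=
    ((AlgHom.snd k K L).comp (graph k E z ζ).val).comp ((c.trans e.symm : _ ≃ₐ[k] _) : _ →ₐ[k] _)
  have key : ∀ (w : graph k E z ζ) (q : LauI k E z), (q : K) = (w : K × L).1 →
      π q = (w : K × L).2 := by
    intro w q hq
    have h1 : e w = c q := by
      apply Subtype.ext
      change (w : K × L).1 = (q : K)
      exact hq.symm
    change ((e.symm (c q) : graph k E z ζ) : K × L).2 = _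
    rw [← h1, AlgEquiv.symm_apply_apply]
  refine ⟨π, ?_, ?_, ?_⟩
  · intro x h
    exact key ⟨(algebraMap E K x, algebraMap E L x),
      Algebra.subset_adjoin (Or.inl (Or.inl ⟨x, rfl⟩))⟩ _ rfl
  · intro j h
    exact key ⟨(z j, ζ j), Algebra.subset_adjoin (Or.inl (Or.inr ⟨j, rfl⟩))⟩ _ rfl
  · intro q
    let w := e.symm (c q)
    have h1 : (q : K) = (w : K × L).1 := by
      have h2 : e w = c q := AlgEquiv.apply_symm_apply _ _
      exact (congrArg Subtype.val h2).symm
    obtain ⟨P, s, h2, h3⟩ := graph_num hz0 hζ w.2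
    refine ⟨P, s, ?_, ?_⟩
    · rw [h1]
      exact h2
    · rw [key w q h1]
      exact h3

/-- Derivations of fields of rational functions. -/
theorem exists_logder (χ : ι → k) : ∃ D : Derivation k (FractionRing (MvPolynomial ι E))
      (FractionRing (MvPolynomial ι E)),
    (∀ x : E, D (algebraMap E _ x) = 0) ∧
      ∀ i, D (algebraMap (MvPolynomial ι E) _ (X i)) =
        χ i • algebraMap (MvPolynomial ι E) (FractionRing (MvPolynomial ι E)) (X i) := by
  let δ : Derivation E (MvPolynomial ι E) (MvPolynomial ι E) :=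
    MvPolynomial.mkDerivation E fun i => χ i • X i
  let δ' : Derivation k (MvPolynomial ι E) (MvPolynomial ι E) := δ.restrictScalars k
  obtain ⟨D, hD⟩ := exists_der_frac (K := FractionRing (MvPolynomial ι E)) δ'
  refine ⟨D, ?_, ?_⟩
  · intro x
    rw [IsScalarTower.algebraMap_apply E (MvPolynomial ι E), hD]
    have : δ' (algebraMap E (MvPolynomial ι E) x) = 0 := δ.map_algebraMap x
    rw [this, map_zero]
  · intro i
    rw [hD]
    have : δ' (X i) = χ i • X i := MvPolynomial.mkDerivation_X _ _ _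
    rw [this, Algebra.smul_def, map_mul, ← IsScalarTower.algebraMap_apply, ← Algebra.smul_def]

end lau

end Pool.Agent.W418.Lin
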